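import Pool.Agent.NPG.Stmts

set_option autoImplicit false

open MeasureTheory Set Topology
open scoped BigOperators Pointwise

namespace Pool.Agent.NPG.H53

open Pool.Agent.LSG

/-- A continuous function whose set of nonzeros is a given open set. -/
theorem exists_eps (H : Type) [TopologicalSpace H] [TopologicalSpace.MetrizableSpace H]
    (V : Set H) (hV : IsOpen V) :
    ∃ ε : H → ℝ, Continuous ε ∧ (∀ x, 0 ≤ ε x) ∧ ∀ x, ε x ≠ 0 ↔ x ∈ V := by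
  letI := TopologicalSpace.metrizableSpaceMetric H
  by_cases hne : (Vᶜ).Nonempty
  · refine ⟨fun x => Metric.infDist x Vᶜ, Metric.continuous_infDist_pt _,
      fun x => Metric.infDist_nonneg, fun x => ?_⟩
    have h1 := hV.isClosed_compl.mem_iff_infDist_zero hne (x := x)
    rw [Ne, ← h1, Set.mem_compl_iff, not_not]
  · refine ⟨fun _ => 1, continuous_const, fun _ => zero_le_one, fun x => ?_⟩
    rw [Set.not_nonempty_iff_eq_empty, Set.compl_empty_iff] at hne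
    simp [hne]

theorem one : SlrStmt → CtkStmt → OneStmt := by
  intro slr ctk H _ _ _ _ V V₀ d l L D Z ξ hVo hV1 hVi hV₀o hV₀1 hV₀i hVV hd hdL hlL hdense hinv
    hdec hloc
  obtain ⟨ε, hεc, hε0, hεV⟩ := exists_eps H V hVo
  have hcont : ∀ j, Continuous fun h : D => ε ((ξ h.1)⁻¹ * h.1 * (l j)⁻¹) := by
    intro j
    rw [continuous_iff_continuousAt]
    rintro ⟨x, hx⟩
    have h1 : ∀ᶠ y : D in 𝓝 (⟨x, hx⟩ : D), ξ y.1 = ξ x := by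
      have h2 := (continuous_subtype_val.tendsto (⟨x, hx⟩ : D)).eventually (hloc x hx)
      exact h2.mono fun y hy => hy y.2
    have h3 : ContinuousAt (fun h : D => ε ((ξ x)⁻¹ * h.1 * (l j)⁻¹)) (⟨x, hx⟩ : D) := by
      apply Continuous.continuousAt
      exact hεc.comp ((continuous_const.mul continuous_subtype_val).mul continuous_const)
    refine h3.congr (h1.mono fun y hy => ?_)
    show ε ((ξ x)⁻¹ * y.1 * (l j)⁻¹) = ε ((ξ y.1)⁻¹ * y.1 * (l j)⁻¹)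
    rw [hy]
  obtain ⟨φ, hφ⟩ : ∃ φ : ℕ → C(D, ℝ), ∀ j h, φ j h = ε ((ξ h.1)⁻¹ * h.1 * (l j)⁻¹) :=
    ⟨fun j => ⟨_, hcont j⟩, fun _ _ => rfl⟩
  obtain ⟨χ, hχφ, hχl, hχ1⟩ := ctk D φ (fun m h => by rw [hφ]; exact hε0 _) (by
    rintro ⟨x, hx⟩
    obtain ⟨w, hw, z, hz, hxe⟩ := hdec x hx
    obtain ⟨j, hj⟩ := hdense z hz V₀ (hV₀o.mem_nhds hV₀1)
    refine ⟨j, ?_⟩
    rw [hφ, hεV]
    have e : (ξ x)⁻¹ * x * (l j)⁻¹ = w * (z * (l j)⁻¹) := by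
      calc (ξ x)⁻¹ * x * (l j)⁻¹ = (ξ x)⁻¹ * (ξ x * w * z) * (l j)⁻¹ := by rw [← hxe]
        _ = w * (z * (l j)⁻¹) := by group
    show (ξ x)⁻¹ * x * (l j)⁻¹ ∈ V
    rw [e]
    exact hVV w hw _ hj)
  have hχV : ∀ m (h : D), χ m h ≠ 0 → (ξ h.1)⁻¹ * h.1 * (l m)⁻¹ ∈ V := by
    intro m h hh
    have := hχφ m h hh
    rwa [hφ, hεV] at this
  have hgL : ∀ n m : ℕ, (l m)⁻¹ * d (Nat.pair n m) ∈ L := fun n m =>
    L.mul_mem (L.inv_mem (hlL m)) (hdL _)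
  obtain ⟨τ, hτ⟩ : ∃ τ : ℕ → ℕ → D ≃ₜ D, ∀ n m (h : D),
      ((τ n m h : D) : H) = h.1 * ((l m)⁻¹ * d (Nat.pair n m)) := by
    refine ⟨fun n m => (Homeomorph.mulRight ((l m)⁻¹ * d (Nat.pair n m))).subtype
      (fun x => ((hinv x _ (hgL n m)).1).symm), fun n m h => rfl⟩
  have hξτ : ∀ n m (h : D), ξ ((τ n m h : D) : H) = ξ h.1 := by
    intro n m h
    rw [hτ]
    exact (hinv h.1 _ (hgL n m)).2.2
  have key : ∀ (n m : ℕ) (h : D) (n' m' : ℕ) (h' : D) (x : H), χ m h ≠ 0 → χ m' h' ≠ 0 →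
      ξ h.1 = x → ξ h'.1 = x → x⁻¹ * (τ n' m' h' : D).1 * ((τ n m h : D).1)⁻¹ * x ∈ V →
      n = n' ∧ m = m' := by
    intro n m h n' m' h' x h1 h2 h3 h4 h5
    have v1 := hχV m h h1
    have v2 := hχV m' h' h2
    rw [h3] at v1
    rw [h4] at v2
    rw [hτ, hτ] at h5
    have e : d (Nat.pair n' m') * (d (Nat.pair n m))⁻¹ =
        (x⁻¹ * h'.1 * (l m')⁻¹)⁻¹ *
          (x⁻¹ * (h'.1 * ((l m')⁻¹ * d (Nat.pair n' m'))) *
            (h.1 * ((l m)⁻¹ * d (Nat.pair n m)))⁻¹ * x) *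
          (x⁻¹ * h.1 * (l m)⁻¹) * 1 := by group
    by_contra hne
    have hs : Nat.pair n' m' ≠ Nat.pair n m := by
      intro hh
      rw [Nat.pair_eq_pair] at hh
      exact hne ⟨hh.1.symm, hh.2.symm⟩
    apply hd _ _ hs
    rw [e]
    exact Set.mul_mem_mul (Set.mul_mem_mul (Set.mul_mem_mul (hVi _ v2) h5) v1) hV1
  refine slr D ℕ {x : D | x.1 ∈ Z} (fun _ m => χ m) τ ?_ (fun _ => hχl) ?_ (fun _ h => hχ1 h) ?_
  · intro n m x
    show (τ n m x : D).1 ∈ Z ↔ x.1 ∈ Z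
    rw [hτ]
    exact (hinv x.1 _ (hgL n m)).2.1
  · intro y₀
    obtain ⟨x, hx⟩ : ∃ x, x = ξ y₀.1 := ⟨_, rfl⟩
    have h1 : ∀ᶠ y : D in 𝓝 y₀, ξ y.1 = x := by
      have h2 := (continuous_subtype_val.tendsto y₀).eventually (hloc y₀.1 y₀.2)
      exact h2.mono fun y hy => (hy y.2).trans hx.symm
    have h2 : ∀ᶠ y : D in 𝓝 y₀, x⁻¹ * y.1 * (y₀.1)⁻¹ * x ∈ V₀ := by
      have hc : Continuous fun y : D => x⁻¹ * y.1 * (y₀.1)⁻¹ * x :=
        ((continuous_const.mul continuous_subtype_val).mul continuous_const).mul continuous_const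
      have h3 : (fun y : D => x⁻¹ * y.1 * (y₀.1)⁻¹ * x) y₀ = 1 := by
        show x⁻¹ * y₀.1 * (y₀.1)⁻¹ * x = 1
        group
      have h4 : V₀ ∈ 𝓝 ((fun y : D => x⁻¹ * y.1 * (y₀.1)⁻¹ * x) y₀) := by
        rw [h3]
        exact hV₀o.mem_nhds hV₀1
      exact hc.continuousAt.eventually h4
    refine ⟨{y : D | ξ y.1 = x ∧ x⁻¹ * y.1 * (y₀.1)⁻¹ * x ∈ V₀}, h1.and h2, ?_⟩
    refine Set.Subsingleton.finite ?_
    rintro ⟨n, m⟩ ⟨y, ⟨h, hh, rfl⟩, hy1, hy2⟩ ⟨n', m'⟩ ⟨y', ⟨h', hh', rfl⟩, hy1', hy2'⟩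
    simp only at *
    have e : x⁻¹ * (τ n' m' h' : D).1 * ((τ n m h : D).1)⁻¹ * x =
        (x⁻¹ * (τ n' m' h' : D).1 * (y₀.1)⁻¹ * x) *
          (x⁻¹ * (τ n m h : D).1 * (y₀.1)⁻¹ * x)⁻¹ := by group
    have h5 : x⁻¹ * (τ n' m' h' : D).1 * ((τ n m h : D).1)⁻¹ * x ∈ V := by
      rw [e]
      exact hVV _ hy2' _ (hV₀i _ hy2)
    obtain ⟨r1, r2⟩ := key n m h n' m' h' x hh hh' ((hξτ n m h).symm.trans hy1)
      ((hξτ n' m' h').symm.trans hy1') h5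
    rw [r1, r2]
  · intro n m n' m' h h' h1 h2 h3
    have e1 : ξ h.1 = ξ h'.1 := by
      rw [← hξτ n m h, ← hξτ n' m' h', h3]
    refine key n m h n' m' h' (ξ h.1) h1 h2 rfl e1.symm ?_
    rw [h3]
    have e : (ξ h.1)⁻¹ * (τ n' m' h' : D).1 * ((τ n' m' h' : D).1)⁻¹ * ξ h.1 = 1 := by group
    rw [e]
    exact hV1

end Pool.Agent.NPG.H53
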